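import Pool.Agent.Helper75.PZ.Stmts2

/-! # PZ: the row SY -/

set_option autoImplicit false

universe u

namespace Pool.Agent.Helper39.PZ

open Pool.Agent.Helper75.PZ HahnSeries

theorem ord_of {M : Type u} [Field M] {h : HS M} {γ : G2} (h0 : h.coeff γ ≠ 0)
    (h1 : ∀ γ' < γ, h.coeff γ' = 0) : h ≠ 0 ∧ h.order = γ ∧ h.leadingCoeff = h.coeff γ := by
  have hn : h ≠ 0 := ne_zero_of_coeff_ne_zero h0
  have ho : h.order = γ := by
    refine le_antisymm (order_le_of_coeff_ne_zero h0) (not_lt.1 fun hlt => ?_)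
    exact (coeff_order_eq_zero.not.2 hn) (h1 _ hlt)
  refine ⟨hn, ho, ?_⟩
  rw [leadingCoeff_eq, ho]

theorem coeff_ord {M : Type u} [Field M] {h : HS M} (hh : h ≠ 0) : h.coeff h.order ≠ 0 :=
  coeff_order_eq_zero.not.2 hh

theorem st_SY (hGD : ST_GD.{u}) : ST_SY.{u} := by
  intro F M _ _ _ σ φ ψ h2 hφ hψ hσ K hK A _ _ E Φ hop halg
  have hE : ∀ a : A, a ≠ 0 → E a ≠ 0 := fun a ha h => ha (E.map_eq_zero_iff.1 h)
  have hV : ∀ a : A, Φ a 1 = op φ ψ (E a) 1 := fun a => hop a 1
  have hV0 : ∀ a : A, a ≠ 0 → Φ a 1 ≠ 0 := by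
    intro a ha
    rw [hV]
    exact (hGD F M σ φ ψ hφ hψ hσ (E a) (hE a ha) 1 one_ne_zero).1
  have hmul : ∀ x y : A, Φ (x * y) 1 = op φ ψ (E x) (Φ y 1) := by
    intro x y
    rw [map_mul, Module.End.mul_apply, hop]
  have hadd : ∀ x y : A, Φ (x + y) 1 = Φ x 1 + Φ y 1 := by
    intro x y
    rw [map_add, LinearMap.add_apply]
  have h2M : (2 : M) ≠ 0 := by
    intro h
    apply h2
    have : algebraMap F M 2 = 0 := by rw [map_ofNat, h]
    exact (map_eq_zero (algebraMap F M)).1 this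
  have hz : ∀ x : A, Φ x 1 ≠ 0 → x ≠ 0 := by
    intro x hx h
    apply hx
    rw [h, map_zero, LinearMap.zero_apply]
  refine ⟨?_, ?_, ?_, ?_, ?_, ?_, ?_, ?_, ?_⟩
  · intro x hx
    exact leadingCoeff_ne_zero.2 (hV0 x hx)
  · intro x y hx hy
    exact mul_ne_zero hx hy
  · intro x y hx hy
    have := (hGD F M σ φ ψ hφ hψ hσ (E x) (hE x hx) (Φ y 1) (hV0 y hy)).2.1
    rw [← hmul, ← hV] at this
    exact this
  · intro x y hx hy
    have := (hGD F M σ φ ψ hφ hψ hσ (E x) (hE x hx) (Φ y 1) (hV0 y hy)).2.2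
    rw [← hmul, ← hV] at this
    exact this
  · intro x y hx hy hlt
    have hlt' : (Φ x 1).order < (Φ y 1).order := hlt
    have hc : (Φ (x + y) 1).coeff (Φ x 1).order = (Φ x 1).coeff (Φ x 1).order := by
      rw [hadd, coeff_add, coeff_eq_zero_of_lt_order hlt', add_zero]
    obtain ⟨a1, a2, a3⟩ := ord_of (h := Φ (x + y) 1) (γ := (Φ x 1).order)
      (by rw [hc]; exact coeff_ord (hV0 x hx))
      (fun γ' hγ' => by
        rw [hadd, coeff_add, coeff_eq_zero_of_lt_order hγ',
          coeff_eq_zero_of_lt_order (hγ'.trans hlt'), add_zero])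
    refine ⟨hz _ a1, a2, ?_⟩
    show (Φ (x + y) 1).leadingCoeff = (Φ x 1).leadingCoeff
    rw [a3, hc, leadingCoeff_eq]
  · intro x y hx hy heq hne
    have heq' : (Φ x 1).order = (Φ y 1).order := heq
    have hc : (Φ (x + y) 1).coeff (Φ x 1).order =
        (Φ x 1).leadingCoeff + (Φ y 1).leadingCoeff := by
      rw [hadd, coeff_add, leadingCoeff_eq, leadingCoeff_eq, ← heq']
    obtain ⟨a1, a2, a3⟩ := ord_of (h := Φ (x + y) 1) (γ := (Φ x 1).order)
      (by rw [hc]; exact hne)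
      (fun γ' hγ' => by
        rw [hadd, coeff_add, coeff_eq_zero_of_lt_order hγ',
          coeff_eq_zero_of_lt_order (hγ'.trans_eq heq'), add_zero])
    refine ⟨hz _ a1, a2, ?_⟩
    show (Φ (x + y) 1).leadingCoeff = (Φ x 1).leadingCoeff + (Φ y 1).leadingCoeff
    rw [a3, hc]
  · intro x y hx hy heq hs
    have heq' : (Φ x 1).order = (Φ y 1).order := heq
    have hs' : (Φ x 1).leadingCoeff + (Φ y 1).leadingCoeff = 0 := hs
    by_cases hxy : x + y = 0
    · exact Or.inl hxy
    · right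
      show (Φ x 1).order < (Φ (x + y) 1).order
      refine not_le.1 fun hle => ?_
      have h0 := coeff_ord (hV0 _ hxy)
      apply h0
      rcases hle.lt_or_eq with h | h
      · have e1 : (Φ x 1).coeff (Φ (x + y) 1).order = 0 := coeff_eq_zero_of_lt_order h
        have e2 : (Φ y 1).coeff (Φ (x + y) 1).order = 0 :=
          coeff_eq_zero_of_lt_order (h.trans_eq heq')
        have e3 : (Φ (x + y) 1).coeff (Φ (x + y) 1).order =
            (Φ x 1).coeff (Φ (x + y) 1).order + (Φ y 1).coeff (Φ (x + y) 1).order := by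
          conv_lhs => rw [hadd x y]
          rw [coeff_add]
          simp only [hadd]
        rw [e3, e1, e2, add_zero]
      · have e3 : (Φ (x + y) 1).coeff (Φ x 1).order =
            (Φ x 1).leadingCoeff + (Φ y 1).leadingCoeff := by
          rw [hadd, coeff_add, leadingCoeff_eq, leadingCoeff_eq, ← heq']
        rw [h, e3, hs']
  · intro r hr
    have e1 : Φ (algebraMap K A (algebraMap F K r)) 1 = HahnSeries.C (algebraMap F M r) := by
      rw [halg, mul_one]
      have : ((algebraMap F K r : K) : HS M) = algebraMap F (HS M) r := rfl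
      rw [this, AlgHom.commutes]
      rfl
    have hr' : algebraMap F M r ≠ 0 := (map_ne_zero (algebraMap F M)).2 hr
    show (Φ (algebraMap K A (algebraMap F K r)) 1).order = 0 ∧
      (Φ (algebraMap K A (algebraMap F K r)) 1).leadingCoeff = algebraMap F M r
    rw [e1]
    exact ⟨order_single hr', leadingCoeff_of_single⟩
  · intro k hk
    have e1 : Φ (algebraMap K A k) 1 = ψ (k : HS M) := by rw [halg, mul_one]
    show 6 ∣ n1 (Φ (algebraMap K A k) 1).order ∧ 2 ∣ n2 (Φ (algebraMap K A k) 1).order ∧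
      σ (Φ (algebraMap K A k) 1).leadingCoeff = (Φ (algebraMap K A k) 1).leadingCoeff
    rw [e1]
    have hk0 : (k : HS M) ≠ 0 := fun h => hk (Subtype.ext h)
    have hψ0 : ψ (k : HS M) ≠ 0 := (map_ne_zero ψ).2 hk0
    have hk1 : φ (k : HS M) = k := (hK _).1 k.2
    obtain ⟨γ, hγ⟩ : ∃ γ, γ = (ψ (k : HS M)).order := ⟨_, rfl⟩
    have hc0 := coeff_ord hψ0
    rw [leadingCoeff_eq]
    rw [← hγ] at hc0 ⊢
    have h6 : 6 ∣ n1 γ := by
      by_contra h
      exact hc0 (hψ.2 _ γ h)
    obtain ⟨q, hq⟩ := h6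
    have hcq : (ψ (k : HS M)).coeff γ = (k : HS M).coeff (toLex (q, n2 γ)) :=
      hψ.1 _ (toLex (q, n2 γ)) γ hq rfl
    obtain ⟨m, hm⟩ : ∃ m, m = (ψ (k : HS M)).coeff γ := ⟨_, rfl⟩
    have hφk := hφ (k : HS M) (toLex (q, n2 γ))
    rw [hk1, ← hcq, ← hm] at hφk
    have hn2 : n2 (toLex (q, n2 γ)) = n2 γ := rfl
    rw [hn2] at hφk
    rw [← hm] at hc0 ⊢
    have hev : Even (n2 γ) := by
      by_contra hodd
      rw [Int.not_even_iff_odd] at hodd
      rw [hodd.neg_one_zpow] at hφk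
      have hs : σ m = -m := by
        have := congrArg (fun x => -x) hφk
        simp only [neg_mul, one_mul, neg_neg] at this
        exact this.symm
      have h3 := hσ m
      rw [hs, map_neg, hs, neg_neg, hs] at h3
      have : 2 * m = 0 := by linear_combination -h3
      rcases mul_eq_zero.1 this with h | h
      · exact h2M h
      · exact hc0 h
    refine ⟨⟨q, hq⟩, hev.two_dvd, ?_⟩
    rw [hev.neg_one_zpow, one_mul] at hφk
    exact hφk.symm

end Pool.Agent.Helper39.PZ
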